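import Pool.Agent.Helper62.PM.St5

/-!
Project PM, module PD: the operator applied to the flattened function is bounded.
-/

set_option autoImplicit false

open MeasureTheory Metric Set Filter Topology
open scoped RealInnerProductSpace ContDiff

namespace Pool.Agent.Helper40.PM

open Pool.Agent.Helper62.PM
open Pool.Agent.Helper62.Mink

private lemma taylor2 (G : ℝ → ℝ) (M : ℝ) (hG : ContDiff ℝ 2 G)
    (h2 : ∀ t, |deriv (deriv G) t| ≤ M) (t : ℝ) :
    G t ≤ G 0 + deriv G 0 * t + M / 2 * t ^ 2 := by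
  have hd1 : Differentiable ℝ G := hG.differentiable (by norm_num)
  have hd2 : Differentiable ℝ (deriv G) := by
    have h : ContDiff ℝ 1 (deriv G) := by
      have := ContDiff.iterate_deriv' 1 1 (f := G) (by exact_mod_cast hG)
      simpa using this
    exact h.differentiable (by norm_num)
  set K : ℝ → ℝ := fun t => G 0 + deriv G 0 * t + M / 2 * t ^ 2 - G t with hK
  have hK1 : ∀ s, HasDerivAt K (deriv G 0 + M * s - deriv G s) s := by
    intro s
    have h3 : HasDerivAt (fun t : ℝ => G 0 + deriv G 0 * t + M / 2 * t ^ 2)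
        (deriv G 0 + M * s) s := by
      have h4 := (((hasDerivAt_id s).const_mul (deriv G 0)).const_add (G 0)).add
        ((hasDerivAt_pow 2 s).const_mul (M / 2))
      refine h4.congr_deriv ?_
      simp
      ring
    exact h3.sub (hd1 s).hasDerivAt
  have hK' : deriv K = fun s => deriv G 0 + M * s - deriv G s := funext fun s => (hK1 s).deriv
  have hmono : Monotone (deriv K) := by
    rw [hK']
    have hD : ∀ s, HasDerivAt (fun s => deriv G 0 + M * s - deriv G s)
        (M - deriv (deriv G) s) s := by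
      intro s
      have h5 := (((hasDerivAt_id s).const_mul M).const_add (deriv G 0)).sub (hd2 s).hasDerivAt
      refine h5.congr_deriv ?_
      simp
    refine monotone_of_deriv_nonneg (fun s => (hD s).differentiableAt) fun s => ?_
    rw [(hD s).deriv]
    linarith [le_abs_self (deriv (deriv G) s), h2 s]
  have hconv : ConvexOn ℝ univ K :=
    Monotone.convexOn_univ_of_deriv (fun s => (hK1 s).differentiableAt) hmono
  have hK0 : K 0 = 0 := by simp [hK]
  have hd0 : HasDerivAt K 0 0 := by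
    have := hK1 0
    simpa using this
  have hge : 0 ≤ K t := by
    rcases lt_trichotomy t 0 with ht | ht | ht
    · have := hconv.slope_le_of_hasDerivAt (mem_univ t) (mem_univ 0) ht hd0
      rw [slope_def_field, hK0] at this
      by_contra hcon
      push Not at hcon
      have h6 : 0 < (0 - K t) / (0 - t) := div_pos (by linarith) (by linarith)
      linarith
    · rw [ht, hK0]
    · have := hconv.le_slope_of_hasDerivAt (mem_univ 0) (mem_univ t) ht hd0
      rw [slope_def_field, hK0] at this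
      by_contra hcon
      push Not at hcon
      have h6 : (K t - 0) / (t - 0) < 0 := div_neg_of_neg_of_pos (by linarith) (by linarith)
      linarith
  simp only [hK] at hge
  linarith

private lemma landau (G : ℝ → ℝ) (M : ℝ) (hM : 0 < M) (hG : ContDiff ℝ 2 G)
    (h0 : ∀ t, 0 ≤ G t) (h2 : ∀ t, |deriv (deriv G) t| ≤ M) :
    (deriv G 0) ^ 2 ≤ 2 * M * G 0 := by
  have h1 := taylor2 G M hG h2 (-(deriv G 0) / M)
  have h3 := h0 (-(deriv G 0) / M)
  have h4 : G 0 + deriv G 0 * (-(deriv G 0) / M) + M / 2 * (-(deriv G 0) / M) ^ 2 =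
      G 0 - (deriv G 0) ^ 2 / (2 * M) := by
    field_simp
    ring
  rw [h4] at h1
  have h5 : (deriv G 0) ^ 2 / (2 * M) ≤ G 0 := by linarith
  rw [div_le_iff₀ (by linarith)] at h5
  linarith

/-- bounds for the flattening function -/
private lemma fl_deriv {F : ℝ → ℝ} (hF : Fl F) (s : ℝ) : 0 ≤ deriv F s ∧ deriv F s ≤ 1 := by
  refine ⟨hF.mono.deriv_nonneg, ?_⟩
  have hd : DifferentiableAt ℝ F s := hF.smooth.contDiffAt.differentiableAt (by norm_num)
  have hm : Monotone fun s => s - F s := by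
    intro x y hxy
    have := hF.lip hxy
    simp only at this ⊢
    linarith
  have h1 : 0 ≤ deriv (fun s => s - F s) s := hm.deriv_nonneg
  have h2 : HasDerivAt (fun s => s - F s) (1 - deriv F s) s := (hasDerivAt_id s).sub hd.hasDerivAt
  rw [h2.deriv] at h1
  linarith

private lemma fl_deriv2 {F : ℝ → ℝ} (hF : Fl F) (s : ℝ) (hs : 1 < |s|) : deriv (deriv F) s = 0 := by
  rcases lt_abs.1 hs with h | h
  · have h1 : deriv F =ᶠ[𝓝 s] fun _ => 1 := by
      filter_upwards [Ioi_mem_nhds h] with x hx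
      have h2 : F =ᶠ[𝓝 x] fun y => y := by
        filter_upwards [Ioi_mem_nhds hx] with y hy
        exact hF.id y (le_of_lt hy)
      rw [h2.deriv_eq, deriv_id'']
    rw [h1.deriv_eq, deriv_const]
  · have h1 : deriv F =ᶠ[𝓝 s] fun _ => 0 := by
      filter_upwards [Iio_mem_nhds (show s < -1 by linarith)] with x hx
      have h2 : F =ᶠ[𝓝 x] fun _ => 0 := by
        filter_upwards [Iio_mem_nhds hx] with y hy
        exact hF.zero y (le_of_lt hy)
      rw [h2.deriv_eq, deriv_const]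
    rw [h1.deriv_eq, deriv_const]

private lemma fl_le {F : ℝ → ℝ} (hF : Fl F) (s : ℝ) : F s ≤ |s| + 1 := by
  rcases le_total s 1 with h | h
  · have := hF.mono h
    rw [hF.id 1 le_rfl] at this
    have := abs_nonneg s
    linarith
  · rw [hF.id s h]
    linarith [le_abs_self s]

/-- the inner product with the rotating point -/
private lemma inner_rp {n : ℕ} (e v w b : E n) (t : ℝ) :
    inner ℝ b (rp e v t w) = (inner ℝ b w - (inner ℝ e w * inner ℝ b e + inner ℝ v w * inner ℝ b v)) +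
      (inner ℝ e w * inner ℝ b e + inner ℝ v w * inner ℝ b v) * Real.cos t +
      (inner ℝ e w * inner ℝ b v - inner ℝ v w * inner ℝ b e) * Real.sin t := by
  unfold rp
  rw [inner_add_right, inner_add_right, inner_smul_right, inner_smul_right]
  ring

private lemma abs_inner_le {n : ℕ} {x y : E n} (hx : ‖x‖ = 1) : |(inner ℝ x y : ℝ)| ≤ ‖y‖ := by
  have := abs_real_inner_le_norm x y
  rwa [hx, one_mul] at this

private lemma coef_bound {n : ℕ} (e v w b : E n) (he : ‖e‖ = 1) (hv : ‖v‖ = 1) (hw : ‖w‖ = 1) :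
    |inner ℝ e w * inner ℝ b e + inner ℝ v w * inner ℝ b v| ≤ 2 * ‖b‖ ∧
    |inner ℝ e w * inner ℝ b v - inner ℝ v w * inner ℝ b e| ≤ 2 * ‖b‖ := by
  have h1 : |(inner ℝ e w : ℝ)| ≤ 1 := by
    have := abs_inner_le (y := w) he
    rwa [hw] at this
  have h2 : |(inner ℝ v w : ℝ)| ≤ 1 := by
    have := abs_inner_le (y := w) hv
    rwa [hw] at this
  have h3 : |(inner ℝ b e : ℝ)| ≤ ‖b‖ := by
    rw [real_inner_comm]
    exact abs_inner_le he
  have h4 : |(inner ℝ b v : ℝ)| ≤ ‖b‖ := by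
    rw [real_inner_comm]
    exact abs_inner_le hv
  have hb := norm_nonneg b
  have k1 : |(inner ℝ e w : ℝ) * inner ℝ b e| ≤ ‖b‖ := by
    rw [abs_mul]
    calc _ ≤ 1 * ‖b‖ := mul_le_mul h1 h3 (abs_nonneg _) zero_le_one
      _ = _ := one_mul _
  have k2 : |(inner ℝ v w : ℝ) * inner ℝ b v| ≤ ‖b‖ := by
    rw [abs_mul]
    calc _ ≤ 1 * ‖b‖ := mul_le_mul h2 h4 (abs_nonneg _) zero_le_one
      _ = _ := one_mul _
  have k3 : |(inner ℝ e w : ℝ) * inner ℝ b v| ≤ ‖b‖ := by
    rw [abs_mul]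
    calc _ ≤ 1 * ‖b‖ := mul_le_mul h1 h4 (abs_nonneg _) zero_le_one
      _ = _ := one_mul _
  have k4 : |(inner ℝ v w : ℝ) * inner ℝ b e| ≤ ‖b‖ := by
    rw [abs_mul]
    calc _ ≤ 1 * ‖b‖ := mul_le_mul h2 h3 (abs_nonneg _) zero_le_one
      _ = _ := one_mul _
  constructor
  · exact (abs_add_le _ _).trans (by linarith)
  · exact (abs_sub _ _).trans (by linarith)

/-- a trigonometric function and its derivatives -/
private lemma trig (A B C : ℝ) (f : ℝ → ℝ) (hf : ∀ t, f t = A + B * Real.cos t + C * Real.sin t) :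
    ContDiff ℝ ∞ f ∧ (∀ t, HasDerivAt f (-B * Real.sin t + C * Real.cos t) t) ∧
    (∀ t, HasDerivAt (fun t => -B * Real.sin t + C * Real.cos t)
      (-(B * Real.cos t) - C * Real.sin t) t) := by
  have hf' : f = fun t => A + B * Real.cos t + C * Real.sin t := funext hf
  refine ⟨?_, ?_, ?_⟩
  · rw [hf']
    fun_prop
  · intro t
    rw [hf']
    have := (((Real.hasDerivAt_cos t).const_mul B).const_add A).add ((Real.hasDerivAt_sin t).const_mul C)
    refine this.congr_deriv ?_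
    ring
  · intro t
    have := ((Real.hasDerivAt_sin t).const_mul (-B)).add ((Real.hasDerivAt_cos t).const_mul C)
    refine this.congr_deriv ?_
    ring

/-- second derivative of the flattened function along a curve -/
private lemma flat_deriv (F l S l' S' l'' S'' : ℝ → ℝ) (η : ℝ) (hη : 0 < η) (hF : Fl F)
    (h1 : ∀ t, HasDerivAt l (l' t) t) (h2 : ∀ t, HasDerivAt l' (l'' t) t)
    (h3 : ∀ t, HasDerivAt S (S' t) t) (h4 : ∀ t, HasDerivAt S' (S'' t) t) (t : ℝ) :
    deriv (deriv fun t => l t + η * F (S t / η)) t =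
      l'' t + (deriv (deriv F) (S t / η) * S' t ^ 2 / η + deriv F (S t / η) * S'' t) := by
  have hFd : ∀ s, HasDerivAt F (deriv F s) s := fun s =>
    (hF.smooth.contDiffAt.differentiableAt (by norm_num)).hasDerivAt
  have hF1 : ContDiff ℝ ∞ (deriv F) := by
    have := ContDiff.iterate_deriv 1 (f := F) hF.smooth
    simpa using this
  have hFdd : ∀ s, HasDerivAt (deriv F) (deriv (deriv F) s) s := fun s =>
    (hF1.contDiffAt.differentiableAt (by norm_num)).hasDerivAt
  have hd1 : ∀ t, HasDerivAt (fun t => l t + η * F (S t / η)) (l' t + deriv F (S t / η) * S' t) t := by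
    intro t
    have hS : HasDerivAt (fun t => S t / η) (S' t / η) t := (h3 t).div_const η
    have := (h1 t).add (((hFd (S t / η)).comp t hS).const_mul η)
    refine this.congr_deriv ?_
    field_simp
  have e1 : deriv (fun t => l t + η * F (S t / η)) = fun t => l' t + deriv F (S t / η) * S' t :=
    funext fun t => (hd1 t).deriv
  rw [e1]
  have hS : HasDerivAt (fun t => S t / η) (S' t / η) t := (h3 t).div_const η
  have h5 : HasDerivAt (fun t => l' t + deriv F (S t / η) * S' t)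
      (l'' t + (deriv (deriv F) (S t / η) * (S' t / η) * S' t +
        deriv F (S t / η) * S'' t)) t := by
    have h6 : HasDerivAt (fun t => deriv F (S t / η)) (deriv (deriv F) (S t / η) * (S' t / η)) t :=
      HasDerivAt.comp (h₂ := deriv F) t (hFdd (S t / η)) hS
    exact (h2 t).add (h6.mul (h4 t))
  rw [h5.deriv]
  field_simp

private lemma num1 {c s i g : ℝ} (hc : 0 < c) (hg : g = s + c * i) (h1 : s ≤ c / 2) (h2 : i ≤ 1) :
    g ≤ 3 * c / 2 := by
  have := mul_le_mul_of_nonneg_left h2 hc.le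
  rw [hg]
  linarith

private lemma num2 {M c d g k : ℝ} (hM : 0 < M) (hc : 0 < c) (hg : d ^ 2 ≤ 2 * M * g)
    (h1 : g ≤ 3 * c / 2) (hk : |k| ≤ 2) : (d - c * k) ^ 2 ≤ 6 * M * c + 8 * c ^ 2 := by
  have e2 : (d - c * k) ^ 2 ≤ 2 * d ^ 2 + 2 * (c * k) ^ 2 := by
    nlinarith [sq_nonneg (d + c * k)]
  have e3 : k ^ 2 ≤ 4 := by
    have := sq_le_sq' (abs_le.1 hk).1 (abs_le.1 hk).2
    linarith
  have e4 : d ^ 2 ≤ 3 * M * c := by
    refine hg.trans ?_
    have := mul_le_mul_of_nonneg_left h1 (by linarith : (0 : ℝ) ≤ 2 * M)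
    linarith
  have e5 : (c * k) ^ 2 ≤ 4 * c ^ 2 := by
    have := mul_le_mul_of_nonneg_left e3 (sq_nonneg c)
    rw [mul_pow]
    linarith
  linarith

private lemma num3 {M c MF : ℝ} (hc : 0 < c) (hc1 : c ≤ 1) (hMF : 0 ≤ MF) :
    MF * (6 * M * c + 8 * c ^ 2) ≤ MF * (12 * M + 16) * (c / 2) := by
  have h1 : c ^ 2 ≤ c := by nlinarith
  have : 6 * M * c + 8 * c ^ 2 ≤ (12 * M + 16) * (c / 2) := by linarith
  calc MF * (6 * M * c + 8 * c ^ 2) ≤ MF * ((12 * M + 16) * (c / 2)) :=
        mul_le_mul_of_nonneg_left this hMF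
    _ = _ := by ring

private lemma num4 {A B b1 b2 b3 b4 b5 c1 c2 c3 c4 c5 : ℝ} (h1 : |c1| ≤ b1) (h2 : |c2| ≤ b2)
    (h3 : |c3| ≤ b3) (h4 : |c4| ≤ b4) (h5 : |c5| ≤ b5) (hA : A = c1 + (c2 + c3) + (c4 + c5))
    (hB : B = b1 + b2 + b3 + b4 + b5) : |A| ≤ B := by
  have c1 := abs_le.1 h1
  have c2 := abs_le.1 h2
  have c3 := abs_le.1 h3
  have c4 := abs_le.1 h4
  have c5 := abs_le.1 h5
  rw [abs_le, hA, hB]
  constructor <;> linarith [c1.1, c1.2, c2.1, c2.2, c3.1, c3.2, c4.1, c4.2, c5.1, c5.2]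

private lemma num5 {x y z a b c : ℝ} (h1 : |x| ≤ a) (h2 : |y| ≤ b) (h3 : |z| ≤ c) :
    |x - (-y - z)| ≤ a + b + c := by
  have c1 := abs_le.1 h1
  have c2 := abs_le.1 h2
  have c3 := abs_le.1 h3
  rw [abs_le]
  constructor <;> linarith [c1.1, c1.2, c2.1, c2.2, c3.1, c3.2]

private lemma num6 {x y e a b : ℝ} (he : 0 < e) (h1 : |x| ≤ a) (h2 : |y| ≤ b) :
    |x + e - y| ≤ a + e + b := by
  have c1 := abs_le.1 h1
  have c2 := abs_le.1 h2
  rw [abs_le]
  constructor <;> linarith [c1.1, c1.2, c2.1, c2.2]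

theorem hPD : StA → StC → StD → StPD := by
  intro hA hC hD n e v σ F φ q ε hON hσ hF hφ hq hε
  obtain ⟨hrot, hgrp, hzero, -⟩ := hA n e v hON
  have he : ‖e‖ = 1 := hON.1
  have hv : ‖v‖ = 1 := hON.2.1
  have hnorm : ∀ (t : ℝ) (x : E n), ‖rp e v t x‖ = ‖x‖ := by
    intro t x
    obtain ⟨θ, -, h⟩ := hrot t
    rw [← h x]
    exact θ.norm_map x
  have ha : ‖σ • e‖ = 1 := by
    rw [norm_smul, he, mul_one]
    rcases hσ with h | h <;> simp [h]
  obtain ⟨M₀, hM₀⟩ : ∃ M₀, ∀ x : E n, ‖x‖ = 1 → |Lop e v φ x| ≤ M₀ := by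
    have hc := (hC n e v φ hON hφ).2.2
    obtain ⟨M, hM⟩ := (isCompact_sphere (0 : E n) 1).exists_bound_of_continuousOn hc
    refine ⟨M, fun x hx => ?_⟩
    have := hM x (by simpa using hx)
    rwa [Real.norm_eq_abs] at this
  obtain ⟨M₁, hM₁⟩ : ∃ M₁, ∀ x : E n, ‖x‖ = 1 → |φ x| ≤ M₁ := by
    have hc := ((hD n).2.2.2.2 φ hφ).1
    obtain ⟨M, hM⟩ := (isCompact_sphere (0 : E n) 1).exists_bound_of_continuousOn hc.continuousOn
    refine ⟨M, fun x hx => ?_⟩
    have := hM x (by simpa using hx)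
    rwa [Real.norm_eq_abs] at this
  obtain ⟨MF, hMF⟩ := hF.d2
  have hMF0 : 0 ≤ MF := (abs_nonneg _).trans (hMF 0)
  have hM₀0 : 0 ≤ M₀ := (abs_nonneg _).trans (hM₀ e he)
  have hM₁0 : 0 ≤ M₁ := (abs_nonneg _).trans (hM₁ e he)
  set P : ℝ := ‖q‖ + ε + 1 with hP
  have hP1 : 1 ≤ P := by
    have := norm_nonneg q
    linarith
  set M : ℝ := M₀ + M₁ + 4 * P with hMdef
  have hM : 0 < M := by linarith
  refine ⟨2 * P + MF * (12 * M + 16) + (M₀ + M₁ + 2 * P) + P + (M₁ + ε + P + 1), ?_⟩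
  intro c hc hc1 w hw
  set a : E n := σ • e with hadef
  clear_value a
  set p : E n := q + (ε + c) • a with hp
  set b : E n := q + ε • a with hb
  have hpP : ‖p‖ ≤ P := by
    calc ‖p‖ ≤ ‖q‖ + ‖(ε + c) • a‖ := norm_add_le _ _
      _ = ‖q‖ + (ε + c) := by rw [norm_smul, ha, mul_one, Real.norm_eq_abs, abs_of_pos (by linarith)]
      _ ≤ P := by rw [hP]; linarith
  have hbP : ‖b‖ ≤ P := by
    calc ‖b‖ ≤ ‖q‖ + ‖ε • a‖ := norm_add_le _ _
      _ = ‖q‖ + ε := by rw [norm_smul, ha, mul_one, Real.norm_eq_abs, abs_of_pos hε]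
      _ ≤ P := by rw [hP]; linarith
  have hpb : ∀ x : E n, inner ℝ p x = inner ℝ b x + c * inner ℝ a x := by
    intro x
    rw [hp, hb, inner_add_left, inner_add_left, real_inner_smul_left, real_inner_smul_left]
    ring
  set X : ℝ → E n := fun t => rp e v t w with hX
  have hX1 : ∀ t, ‖X t‖ = 1 := fun t => (hnorm t w).trans hw
  have hX0 : X 0 = w := hzero w
  have hXc : ContDiff ℝ ∞ X := by
    rw [hX]
    unfold rp
    fun_prop
  set ψ : ℝ → ℝ := fun t => φ (X t) with hψ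
  have hψc : ContDiff ℝ ∞ ψ := by
    refine hφ.smooth.comp_contDiff hXc fun t => ?_
    intro h0
    have h1 := hX1 t
    rw [mem_singleton_iff.1 h0, norm_zero] at h1
    exact zero_ne_one h1
  have hψ1 : ∀ t, HasDerivAt ψ (deriv ψ t) t := fun t =>
    (hψc.contDiffAt.differentiableAt (by norm_num)).hasDerivAt
  have hψc1 : ContDiff ℝ ∞ (deriv ψ) := by
    have := ContDiff.iterate_deriv 1 (f := ψ) hψc
    simpa using this
  have hψ2 : ∀ t, HasDerivAt (deriv ψ) (deriv (deriv ψ) t) t := fun t =>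
    (hψc1.contDiffAt.differentiableAt (by norm_num)).hasDerivAt
  have hψb : ∀ t, |deriv (deriv ψ) t| ≤ M₀ + M₁ := by
    intro t
    have h1 : Lop e v φ (X t) = deriv (deriv ψ) t + φ (X t) := by
      unfold Lop
      have h2 : (fun s => φ (rp e v s (X t))) = fun s => ψ (s + t) := by
        funext s
        simp only [hψ, hX]
        rw [hgrp]
      have h3 : deriv (fun s => ψ (s + t)) = fun s => deriv ψ (s + t) :=
        funext fun s => deriv_comp_add_const ψ t s
      rw [h2, h3, deriv_comp_add_const, zero_add]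
    have h4 : deriv (deriv ψ) t = Lop e v φ (X t) - φ (X t) := by linarith
    rw [h4]
    exact (abs_sub _ _).trans (add_le_add (hM₀ _ (hX1 t)) (hM₁ _ (hX1 t)))
  -- the linear parts
  obtain ⟨kb1, kb2⟩ := coef_bound e v w b he hv hw
  obtain ⟨kp1, kp2⟩ := coef_bound e v w p he hv hw
  obtain ⟨ka1, ka2⟩ := coef_bound e v w a he hv hw
  set Bb : ℝ := inner ℝ e w * inner ℝ b e + inner ℝ v w * inner ℝ b v with hBb
  set Cb : ℝ := inner ℝ e w * inner ℝ b v - inner ℝ v w * inner ℝ b e with hCb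
  set Bp : ℝ := inner ℝ e w * inner ℝ p e + inner ℝ v w * inner ℝ p v with hBp
  set Cp : ℝ := inner ℝ e w * inner ℝ p v - inner ℝ v w * inner ℝ p e with hCp
  set Ca : ℝ := inner ℝ e w * inner ℝ a v - inner ℝ v w * inner ℝ a e with hCa
  have hCC : Cp = Cb + c * Ca := by
    rw [hCp, hCb, hCa, hpb, hpb]
    ring
  obtain ⟨lb0, lb1, lb2⟩ := trig _ _ _ (fun t => inner ℝ b (X t)) (fun t => inner_rp e v w b t)
  obtain ⟨lp0, lp1, lp2⟩ := trig _ _ _ (fun t => inner ℝ p (X t)) (fun t => inner_rp e v w p t)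
  -- the nonnegative function
  set G : ℝ → ℝ := fun t => ψ t + ε - inner ℝ b (X t) with hG
  have hGc : ContDiff ℝ 2 G := by
    have h1 : ContDiff ℝ ∞ G := (hψc.add contDiff_const).sub lb0
    exact_mod_cast contDiff_infty.1 h1 2
  have hG0 : ∀ t, 0 ≤ G t := by
    intro t
    have h1 := hq.le (X t)
    have h2 : (inner ℝ a (X t) : ℝ) ≤ 1 := by
      have := (le_abs_self _).trans (abs_inner_le (y := X t) ha)
      rwa [hX1 t] at this
    have h3 : (inner ℝ b (X t) : ℝ) = inner ℝ q (X t) + ε * inner ℝ a (X t) := by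
      rw [hb, inner_add_left, real_inner_smul_left]
    simp only [hG, hψ]
    rw [h3]
    have h4 := mul_le_of_le_one_right hε.le h2
    linarith
  have hG1 : ∀ t, HasDerivAt G (deriv ψ t - (-Bb * Real.sin t + Cb * Real.cos t)) t := by
    intro t
    exact ((hψ1 t).add_const ε).sub (lb1 t)
  have hG1' : deriv G = fun t => deriv ψ t - (-Bb * Real.sin t + Cb * Real.cos t) :=
    funext fun t => (hG1 t).deriv
  have hG2 : ∀ t, |deriv (deriv G) t| ≤ M := by
    intro t
    have h7 : HasDerivAt (fun t => deriv ψ t - (-Bb * Real.sin t + Cb * Real.cos t))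
        (deriv (deriv ψ) t - (-(Bb * Real.cos t) - Cb * Real.sin t)) t := (hψ2 t).sub (lb2 t)
    rw [hG1', h7.deriv]
    have h1 : |Bb * Real.cos t| ≤ 2 * ‖b‖ := by
      rw [abs_mul]
      calc _ ≤ (2 * ‖b‖) * 1 := mul_le_mul kb1 (Real.abs_cos_le_one t) (abs_nonneg _) (by positivity)
        _ = _ := mul_one _
    have h2 : |Cb * Real.sin t| ≤ 2 * ‖b‖ := by
      rw [abs_mul]
      calc _ ≤ (2 * ‖b‖) * 1 := mul_le_mul kb2 (Real.abs_sin_le_one t) (abs_nonneg _) (by positivity)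
        _ = _ := mul_one _
    refine (num5 (hψb t) h1 h2).trans ?_
    rw [hMdef]
    linarith
  have hlan := landau G M hM hGc hG0 hG2
  -- the flattened function along the curve
  set S : ℝ → ℝ := fun t => ψ t + ε - inner ℝ p (X t) with hS
  have hη : 0 < c / 2 := by linarith
  have hfc : ∀ t, fc F φ a q ε c (X t) = inner ℝ p (X t) + c / 2 * F (S t / (c / 2)) := by
    intro t
    unfold fc flat
    simp only [hX1, mul_one, one_mul, ← hp]
    rfl
  have hfd := flat_deriv F (fun t => inner ℝ p (X t)) S (fun t => -Bp * Real.sin t + Cp * Real.cos t)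
    (fun t => deriv ψ t - (-Bp * Real.sin t + Cp * Real.cos t))
    (fun t => -(Bp * Real.cos t) - Cp * Real.sin t)
    (fun t => deriv (deriv ψ) t - (-(Bp * Real.cos t) - Cp * Real.sin t)) (c / 2) hη hF lp1 lp2
    (fun t => ((hψ1 t).add_const ε).sub (lp1 t)) (fun t => (hψ2 t).sub (lp2 t)) 0
  have hL : Lop e v (fc F φ a q ε c) w = deriv (deriv fun t => fc F φ a q ε c (X t)) 0 +
      fc F φ a q ε c (X 0) := by
    rw [hX0]
    rfl
  rw [hL, funext hfc, hfd, hfc 0]
  simp only [Real.cos_zero, Real.sin_zero, mul_one, mul_zero, sub_zero, zero_add]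
  have hX01 : ‖X 0‖ = 1 := hX1 0
  have b4 : |(inner ℝ p (X 0) : ℝ)| ≤ P := by
    have := abs_real_inner_le_norm p (X 0)
    rw [hX01, mul_one] at this
    exact this.trans hpP
  have ba : |(inner ℝ a (X 0) : ℝ)| ≤ 1 := by
    have := abs_inner_le (y := X 0) ha
    rwa [hX01] at this
  have b0 : |S 0| ≤ M₁ + ε + P := by
    simp only [hS, hψ]
    exact num6 hε (hM₁ (X 0) hX01) b4
  have b1 : |-Bp| ≤ 2 * P := by
    rw [abs_neg]
    exact kp1.trans (by linarith)
  have b3 : |deriv F (S 0 / (c / 2)) * (deriv (deriv ψ) 0 - -Bp)| ≤ M₀ + M₁ + 2 * P := by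
    obtain ⟨f1, f2⟩ := fl_deriv hF (S 0 / (c / 2))
    rw [abs_mul, abs_of_nonneg f1]
    have h1 : |deriv (deriv ψ) 0 - -Bp| ≤ M₀ + M₁ + 2 * P :=
      (abs_sub _ _).trans (add_le_add (hψb 0) b1)
    calc _ ≤ 1 * (M₀ + M₁ + 2 * P) := mul_le_mul f2 h1 (abs_nonneg _) zero_le_one
      _ = _ := one_mul _
  have b5 : |c / 2 * F (S 0 / (c / 2))| ≤ M₁ + ε + P + 1 := by
    rw [abs_mul, abs_of_pos hη, abs_of_nonneg (hF.nonneg _)]
    have h1 := fl_le hF (S 0 / (c / 2))
    rw [abs_div, abs_of_pos hη] at h1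
    calc c / 2 * F (S 0 / (c / 2)) ≤ c / 2 * (|S 0| / (c / 2) + 1) :=
          mul_le_mul_of_nonneg_left h1 hη.le
      _ = |S 0| + c / 2 := by field_simp
      _ ≤ _ := by linarith
  have b2 : |deriv (deriv F) (S 0 / (c / 2)) * (deriv ψ 0 - Cp) ^ 2 / (c / 2)| ≤
      MF * (12 * M + 16) := by
    rcases lt_or_ge 1 |S 0 / (c / 2)| with h | h
    · rw [fl_deriv2 hF _ h, zero_mul, zero_div, abs_zero]
      positivity
    · rw [abs_div, abs_of_pos hη, div_le_one hη] at h
      have hGS : G 0 = S 0 + c * inner ℝ a (X 0) := by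
        simp only [hG, hS]
        rw [hpb]
        ring
      have hGb : G 0 ≤ 3 * c / 2 :=
        num1 hc hGS ((le_abs_self (S 0)).trans h) ((le_abs_self (inner ℝ a (X 0) : ℝ)).trans ba)
      have hd0 : deriv G 0 = deriv ψ 0 - Cb := by
        rw [hG1']
        simp
      have hCa2 : |Ca| ≤ 2 := by
        rw [ha] at ka2
        linarith
      have hsq : (deriv ψ 0 - Cp) ^ 2 ≤ 6 * M * c + 8 * c ^ 2 := by
        have e1 : deriv ψ 0 - Cp = deriv G 0 - c * Ca := by
          rw [hd0, hCC]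
          ring
        rw [e1]
        exact num2 hM hc hlan hGb hCa2
      rw [abs_div, abs_mul, abs_of_pos hη, abs_of_nonneg (sq_nonneg (deriv ψ 0 - Cp)),
        div_le_iff₀ hη]
      have h9 : |deriv (deriv F) (S 0 / (c / 2))| ≤ MF := hMF _
      calc |deriv (deriv F) (S 0 / (c / 2))| * (deriv ψ 0 - Cp) ^ 2 ≤
            MF * (6 * M * c + 8 * c ^ 2) := mul_le_mul h9 hsq (sq_nonneg _) hMF0
        _ ≤ MF * (12 * M + 16) * (c / 2) := num3 hc hc1 hMF0
  exact num4 b1 b2 b3 b4 b5 rfl rfl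

end Pool.Agent.Helper40.PM
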